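import Mathlib

/-!
# Shadings of tubes: definition of density between two scales
-/

set_option autoImplicit false

namespace Pool.Agent.H73.SharpShadings

/-- `A` is `κ`-dense between the scales `σ` and `ρ`: at distance at most `σ` from each point of
`A` there are at least `κ * σ / ρ` points of `A` which have distances at least `ρ` from each
other. -/
def DenseBetween (κ σ ρ : ℝ) (A : Set ℝ) : Prop :=
  ∀ t ∈ A, ∃ F : Finset ℝ, (∀ x ∈ F, x ∈ A ∧ |x - t| ≤ σ) ∧
    (∀ x ∈ F, ∀ y ∈ F, x ≠ y → ρ ≤ |x - y|) ∧ κ * σ / ρ ≤ F.card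

end Pool.Agent.H73.SharpShadings
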